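import Mathlib
import Pool.Agent.H465.R0.SolMain

/-!
# The torsion-free rank of a product of two subgroups with abelian overlaps

`G` is a soluble group of finite torsion-free rank and `G = A B` for subgroups `A` and `B`. If for
every nontrivial term `N` of the derived series the group `(A N ∩ B N) / N` is abelian, then
`r₀(G) + r₀(A ∩ B) = r₀(A) + r₀(B)`. The condition is stated with elements: two elements of `A` which
are congruent modulo `N` to elements of `B` commute modulo `N`. It holds if `A` is abelian, if `B` is
abelian, and if `G` is metabelian (see `overlap_of_left`, `overlap_of_right`,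
`overlap_of_metabelian`).
-/

set_option autoImplicit false

namespace Pool.Agent.Results.MP_3e7388_al.AbelianOverlap

open Pool.Agent.H465.R0

universe u

theorem result (G : Type u) [Group G] [Group.IsSolvable G]
    (hfin : Cardinal.sum (fun n : ℕ => Module.rank ℤ (Additive (Abelianization ↥(derivedSeries G n))))
      < Cardinal.aleph0)
    (A B : Subgroup G) (hAB : ∀ g : G, ∃ a ∈ A, ∃ b ∈ B, g = a * b)
    (hov : ∀ m : ℕ, derivedSeries G m ≠ ⊥ → ∀ a ∈ A, ∀ a' ∈ A,
      (∃ b ∈ B, a⁻¹ * b ∈ derivedSeries G m) → (∃ b ∈ B, a'⁻¹ * b ∈ derivedSeries G m) →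
      a * a' * a⁻¹ * a'⁻¹ ∈ derivedSeries G m) :
    Cardinal.sum (fun n : ℕ => Module.rank ℤ (Additive (Abelianization ↥(derivedSeries G n))))
      + Cardinal.sum (fun n : ℕ =>
          Module.rank ℤ (Additive (Abelianization ↥(derivedSeries (↥(A ⊓ B)) n))))
    = Cardinal.sum (fun n : ℕ =>
          Module.rank ℤ (Additive (Abelianization ↥(derivedSeries (↥A) n))))
      + Cardinal.sum (fun n : ℕ =>
          Module.rank ℤ (Additive (Abelianization ↥(derivedSeries (↥B) n)))) := by
  obtain ⟨n, hn⟩ := Group.IsSolvable.solvable (G := G)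
  exact sol_main n hn hfin A B hAB hov

/-- the condition holds if `A` is abelian -/
theorem overlap_of_left {G : Type u} [Group G] (A B : Subgroup G)
    (h : ∀ x ∈ A, ∀ y ∈ A, x * y = y * x) : Cond A B := by
  intro m _ a ha a' ha' _ _
  rw [h a ha a' ha', mul_inv_cancel_right, mul_inv_cancel]
  exact one_mem _

/-- the condition holds if `B` is abelian -/
theorem overlap_of_right {G : Type u} [Group G] (A B : Subgroup G)
    (h : ∀ x ∈ B, ∀ y ∈ B, x * y = y * x) : Cond A B := by
  intro m _ a _ a' _ ⟨b, hb, h1⟩ ⟨b', hb', h2⟩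
  let π : G →* G ⧸ derivedSeries G m := QuotientGroup.mk' (derivedSeries G m)
  have hπ : ∀ x, π x = 1 ↔ x ∈ derivedSeries G m := fun x => QuotientGroup.eq_one_iff x
  have e1 : π b = π a := by
    have := (hπ _).mpr h1
    rw [map_mul, map_inv] at this
    exact (inv_mul_eq_one.mp this).symm
  have e2 : π b' = π a' := by
    have := (hπ _).mpr h2
    rw [map_mul, map_inv] at this
    exact (inv_mul_eq_one.mp this).symm
  rw [← hπ]
  have h3 : π a * π a' = π a' * π a := by
    rw [← e1, ← e2, ← map_mul, ← map_mul, h b hb b' hb']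
  rw [map_mul, map_mul, map_mul, map_inv, map_inv, h3, mul_inv_cancel_right, mul_inv_cancel]

/-- the condition holds if `G` is metabelian -/
theorem overlap_of_metabelian {G : Type u} [Group G] (A B : Subgroup G)
    (h : derivedSeries G 2 = ⊥) : Cond A B := by
  intro m hm a _ a' _ _ _
  have hm1 : m ≤ 1 := by
    by_contra hlt
    apply hm
    rw [eq_bot_iff, ← h]
    exact derivedSeries_antitone G (by omega)
  refine derivedSeries_antitone G hm1 ?_
  rw [derivedSeries_one, ← Abelianization.ker_of, MonoidHom.mem_ker, map_mul, map_mul, map_mul,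
    map_inv, map_inv, mul_comm (Abelianization.of a), mul_inv_cancel_right, mul_inv_cancel]

end Pool.Agent.Results.MP_3e7388_al.AbelianOverlap
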